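import Pool.Agent.H297.WP.Krm

/-!
MP_b6945b_al (the Knörr–Robinson conjecture).

Notation (`Pool/Agent/Y63/KR/Defs.lean`, `Pool/Agent/Y63/KR/Levels.lean`,
`Pool/Agent/Y63/KR/Surf.lean`, `Pool/Agent/R674/Ce/Fin.lean`, `Pool/Agent/H297/WP/Wr.lean`,
`Pool/Agent/H297/WP/Tower.lean`, `Pool/Agent/H297/WP/Krm.lean`).
* `chi2 p H` is `χ₂(S, H)` for the poset `S` of nontrivial `p`-subgroups of `H`, `numDefectZero p H`
  is `z_p(H)`, and `KRC p H` says `χ₂(S, H) = k(H) - z_p(H)`;
* `krDiff p H = k(H) - χ₂(S, H) - z_p(H)`, that is `- χ̃₂(S, H) - z_p(H)`: the Knörr–Robinson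
  conjecture for `H` is `krDiff p H = 0`;
* `Wr p H` is the wreath product `H ≀ C_p` (Mathlib's regular wreath product of `H` with the cyclic
  group of order `p`), and `It p j H` is the group obtained from `H` by forming it `j` times;
* `numHom g H` is the number of homomorphisms from the fundamental group of the closed orientable
  surface of genus `g` to `H`: the number of the `2g`-tuples with `∏ a_i b_i a_i⁻¹ b_i⁻¹ = 1`;
* `comEuler p H` is the number of the commuting pairs `(x, y)` of `H` minus the sum over these pairs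
  of the Euler characteristic of the poset of the nontrivial `p`-subgroups of `H` that `x` and `y`
  normalise, that is `∑_{(x,y)} -χ̃(S^⟨x,y⟩)`.
-/

open scoped Classical

namespace Pool.Agent.Results.MP_b6945b_al.ModP

open Pool.Agent.Y63.KR (KRC numHom)
open Pool.Agent.R674.Ce (krDiff)
open Pool.Agent.H297.WP

/-- **A congruence modulo `p` decides the Knörr–Robinson conjecture, for every prime `p`.**
Let `δ(H) = k(H) - χ₂(S, H) - z_p(H)` be the difference of the two sides of the conjecture, and let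
`G_0 = G`, `G_{j+1} = G_j ≀ C_p`. Let `g ≥ 2` with `p - 1 ∣ 2 (g - 1)` (`g = 2` for `p ≤ 3`). Then
`p^n` divides the integer `δ(G)` if and only if for all `j < n`
`∑_{(x,y) ∈ G_j × G_j, xy = yx} -χ̃(S^⟨x,y⟩) ≡ |Hom(π₁(Σ_g), G_j)| (mod p |G_j|)`;
so the conjecture holds for `G` if and only if this congruence holds for all `j`, and it holds for
all finite groups if and only if all finite groups satisfy the congruence. -/
theorem result (p : ℕ) [Fact p.Prime] (g : ℕ) (hg : 2 ≤ g) (hp : p - 1 ∣ 2 * (g - 1)) :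
    (∀ (G : GrpCat.{0}) [Finite G],
      (∃ d : ℤ, krDiff p G = d ∧ ∀ n : ℕ, (p : ℤ) ^ n ∣ d ↔ ∀ j < n,
        (p * Nat.card (It p j G) : ℤ) ∣ comEuler p (It p j G) - numHom g (It p j G)) ∧
      (KRC p G ↔ ∀ j : ℕ,
        (p * Nat.card (It p j G) : ℤ) ∣ comEuler p (It p j G) - numHom g (It p j G))) ∧
    ((∀ (G : Type) [Group G] [Finite G], KRC p G) ↔
      ∀ (G : Type) [Group G] [Finite G], (p * Nat.card G : ℤ) ∣ comEuler p G - numHom g G) := by
  obtain ⟨m, rfl⟩ : ∃ m, g = m + 1 := ⟨g - 1, by omega⟩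
  have hm0 : m ≠ 0 := by omega
  have hm : p - 1 ∣ 2 * m := hp
  have hfin : ∀ (j : ℕ) (G : GrpCat.{0}), Finite G → Finite (It p j G) := by
    intro j
    induction j with
    | zero => exact fun G h => h
    | succ j ih =>
      intro G h
      have hs : It p (j + 1) G = It p j (GrpCat.of (Wr p G)) := Function.iterate_succ_apply _ _ _
      rw [hs]
      exact ih _ (inferInstanceAs (Finite (Wr p G)))
  have h1 : ∀ (G : GrpCat.{0}) [Finite G], KRC p G ↔ ∀ j : ℕ,
      (p * Nat.card (It p j G) : ℤ) ∣ comEuler p (It p j G) - numHom (m + 1) (It p j G) := by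
    intro G _
    rw [krc_tower]
    refine forall_congr' fun j => ?_
    have := hfin j G inferInstance
    exact hom_iff hm0 hm _
  refine ⟨fun G _ => ⟨⟨del p G, (del_diff G).symm, fun n => ?_⟩, h1 G⟩, fun h G _ _ => ?_,
    fun h G _ _ => ?_⟩
  · rw [pow_dvd_iff]
    refine forall_congr' fun j => imp_congr_right fun _ => ?_
    have := hfin j G inferInstance
    exact hom_iff hm0 hm _
  · rw [← hom_iff hm0 hm, (krc_iff (p := p) G).mp (h G)]
    exact dvd_zero _
  · have hG : Finite (GrpCat.of G) := inferInstanceAs (Finite G)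
    refine (h1 (GrpCat.of G)).mpr fun j => ?_
    have := hfin j (GrpCat.of G) hG
    exact h _

end Pool.Agent.Results.MP_b6945b_al.ModP
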